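import Pool.Agent.R459.Tw1

/-! # Split primes in the quadratic fields `ℚ(√n)` for almost all `n` in sparse families given by digits

The integer `n` runs through families with as few as `N ^ c` of the integers up to `N = b ^ k`, with any `c > 0`: the
rearrangements of `k` digits, the palindromes, the integers with independent pairs of mirror digits (in particular all
integers whose `i`-th digit lies in an arbitrary set `D i` with at least two digits, for all `i`).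

For almost all `n` in such a family, and the discriminant `d` of `ℚ(√n)`, half of the primes `p < t` in each of the sets `T j` of a
sequence of disjoint sets of primes split in `ℚ(√d)`, for ALL `t` up to a fixed power of `N` and all `j` up to a power of `t`, with an
error of the size of the square root of the number of these primes, up to `t ^ δ`. For `t = (log |d|)² (log log |d|)²` this is the question.

Definitions used: in `Pool.Agent.R459.Eq` (file `Pool/Agent/R459/Eq6.lean`): `Almost b k κ c η τ P`: almost all the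
members `c + κ v` of the three families have the property `P`, up to a proportion of at most `τ`. -/

set_option autoImplicit false

namespace Pool.Agent.Results.MP_aaa0df_nt.DigitFamilies

open Finset Pool.Agent.R459.Eq Pool.Agent.R459.Tw

/-- `d` is `1` or the discriminant of a quadratic field. -/
def Fund (d : ℤ) : Prop := (d % 4 = 1 ∧ Squarefree d) ∨ ∃ m : ℤ, d = 4 * m ∧ (m % 4 = 2 ∨ m % 4 = 3) ∧ Squarefree m

/-- The number of the primes `p < t` in `T` which split in the quadratic field with the discriminant `d`. -/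
noncomputable def split (T : Set ℕ) (d : ℤ) (t : ℝ) : ℕ :=
  Set.ncard {p : ℕ | p.Prime ∧ p ∈ T ∧ (p : ℝ) < t ∧ ¬ ((p : ℤ) ∣ d) ∧ ∃ x : ℤ, (4 * (p : ℤ)) ∣ x ^ 2 - d}

/-- The number of the primes `p < t` in `T`. -/
noncomputable def total (T : Set ℕ) (t : ℝ) : ℕ := Set.ncard {p : ℕ | p.Prime ∧ p ∈ T ∧ (p : ℝ) < t}

lemma fund_mod {d : ℤ} (h : Fund d) : d % 4 = 1 ∨ d % 4 = 0 := by
  rcases h with h | ⟨m, hm, _⟩
  · exact Or.inl h.1
  · right
    rw [hm]
    exact Int.mul_emod_right 4 m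

/-- the primes with `(n / p) = 1` split -/
lemma splits {p : ℕ} (hp : p.Prime) (hp2 : p ≠ 2) {n d m : ℤ} (hd : Fund d) (h : 4 * n = d * m ^ 2) (hJ : jacobiSym n p = 1) :
    ¬ ((p : ℤ) ∣ d) ∧ ∃ x : ℤ, (4 * (p : ℤ)) ∣ x ^ 2 - d := by
  haveI : Fact p.Prime := ⟨hp⟩
  rw [← jacobiSym.legendreSym.to_jacobiSym] at hJ
  have hn0 : (n : ZMod p) ≠ 0 := by
    intro h0
    rw [(legendreSym.eq_zero_iff p n).2 h0] at hJ
    norm_num at hJ
  obtain ⟨r, hr⟩ := (legendreSym.eq_one_iff p hn0).1 hJ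
  have h2 : (2 : ZMod p) ≠ 0 := by
    intro h0
    have h1 : ((2 : ℕ) : ZMod p) = 0 := by exact_mod_cast h0
    rw [ZMod.natCast_eq_zero_iff] at h1
    exact hp2 ((Nat.prime_dvd_prime_iff_eq hp Nat.prime_two).1 h1)
  have h3 : (4 : ZMod p) * n = d * (m : ZMod p) ^ 2 := by
    have := congrArg (fun z : ℤ => (z : ZMod p)) h
    push_cast at this
    exact this
  have h4 : (4 : ZMod p) = 2 * 2 := by norm_num
  have hm0 : (m : ZMod p) ≠ 0 := by
    intro h0
    rw [h0, h4] at h3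
    have : (2 : ZMod p) * 2 * n ≠ 0 := mul_ne_zero (mul_ne_zero h2 h2) hn0
    apply this
    rw [h3]
    ring
  have hd0 : (d : ZMod p) ≠ 0 := by
    intro h0
    rw [h0, h4] at h3
    have : (2 : ZMod p) * 2 * n ≠ 0 := mul_ne_zero (mul_ne_zero h2 h2) hn0
    apply this
    rw [h3]
    ring
  obtain ⟨y, hy⟩ : ∃ y : ℤ, (y : ZMod p) = 2 * r / m := ⟨((2 * r / (m : ZMod p)).val : ℤ), by simp⟩
  have hy2 : (y : ZMod p) ^ 2 = d := by
    rw [hy]
    field_simp
    linear_combination h3 - 4 * hr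
  refine ⟨fun h5 => hd0 ((ZMod.intCast_zmod_eq_zero_iff_dvd d p).2 h5), ?_⟩
  have hpodd : (p : ℤ) % 2 = 1 := by
    have := hp.eq_two_or_odd
    omega
  obtain ⟨x, hx1, hx2⟩ : ∃ x : ℤ, (x : ZMod p) = y ∧ (x - d) % 2 = 0 := by
    rcases Int.emod_two_eq_zero_or_one (y - d) with h5 | h5
    · exact ⟨y, rfl, h5⟩
    · refine ⟨y + p, by simp, ?_⟩
      omega
  refine ⟨x, ?_⟩
  have h6 : (p : ℤ) ∣ x ^ 2 - d := by
    rw [← ZMod.intCast_zmod_eq_zero_iff_dvd]
    push_cast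
    rw [hx1, hy2, sub_self]
  have h7 : (4 : ℤ) ∣ x ^ 2 - d := by
    rcases fund_mod hd with h8 | h8
    · have h9 : x % 2 = 1 := by omega
      obtain ⟨a, ha⟩ : ∃ a, x = 2 * a + 1 := ⟨x / 2, by omega⟩
      obtain ⟨e, he⟩ : ∃ e, d = 4 * e + 1 := ⟨d / 4, by omega⟩
      exact ⟨a ^ 2 + a - e, by rw [ha, he]; ring⟩
    · have h9 : x % 2 = 0 := by omega
      obtain ⟨a, ha⟩ : ∃ a, x = 2 * a := ⟨x / 2, by omega⟩
      obtain ⟨e, he⟩ : ∃ e, d = 4 * e := ⟨d / 4, by omega⟩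
      exact ⟨a ^ 2 - e, by rw [ha, he]; ring⟩
  have hcop : IsCoprime (4 : ℤ) (p : ℤ) := by
    have h8 : Nat.Coprime 4 p := by
      have h9 : Nat.Coprime 2 p := (Nat.coprime_primes Nat.prime_two hp).2 (Ne.symm hp2)
      exact Nat.Coprime.mul_left h9 h9
    exact_mod_cast Nat.isCoprime_iff_coprime.2 h8
  exact hcop.mul_dvd h7 h6

/-- the primes with `(n / p) = -1` do not split -/
lemma not_splits {p : ℕ} (hp : p.Prime) (hp2 : p ≠ 2) {n d m : ℤ} (h : 4 * n = d * m ^ 2) (hJ : jacobiSym n p = -1) :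
    ¬ ∃ x : ℤ, (4 * (p : ℤ)) ∣ x ^ 2 - d := by
  haveI : Fact p.Prime := ⟨hp⟩
  rw [← jacobiSym.legendreSym.to_jacobiSym] at hJ
  rintro ⟨x, hx⟩
  apply (legendreSym.eq_neg_one_iff p).1 hJ
  have h2 : (2 : ZMod p) ≠ 0 := by
    intro h0
    have h1 : ((2 : ℕ) : ZMod p) = 0 := by exact_mod_cast h0
    rw [ZMod.natCast_eq_zero_iff] at h1
    exact hp2 ((Nat.prime_dvd_prime_iff_eq hp Nat.prime_two).1 h1)
  have h3 : (4 : ZMod p) * n = d * (m : ZMod p) ^ 2 := by
    have := congrArg (fun z : ℤ => (z : ZMod p)) h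
    push_cast at this
    exact this
  have h5 : (x : ZMod p) ^ 2 = d := by
    have h6 := (ZMod.intCast_zmod_eq_zero_iff_dvd (x ^ 2 - d) p).2 ((Dvd.intro_left 4 rfl).trans hx)
    push_cast at h6
    exact sub_eq_zero.1 h6
  refine ⟨(x : ZMod p) * m / 2, ?_⟩
  have h4 : (4 : ZMod p) = 2 * 2 := by norm_num
  have h6 : (2 : ZMod p) * 2 * n = (x : ZMod p) ^ 2 * (m : ZMod p) ^ 2 := by rw [← h4, h3, h5]
  field_simp
  linear_combination h6

lemma lt_iff (t : ℝ) (ht : 1 ≤ t) (p : ℕ) : (p : ℝ) < t ↔ p ≤ ⌈t⌉₊ - 1 := by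
  have h1 : 1 ≤ ⌈t⌉₊ := by
    rw [Nat.one_le_ceil_iff]
    linarith
  rw [← Nat.lt_ceil]
  omega

/-- **Split primes in `ℚ(√n)` for almost all `n` in a sparse family given by digits.** Let `b ≥ 2`, `η > 0` and `0 < δ ≤ 1 / 2`. There
is `W` such that for `κ ≠ 0` and all sufficiently large `X` the following holds for all `k ≥ 2`, all `c` and EVERY sequence of
disjoint sets `T j` of primes. Almost all the members `n` of the families of integers `c + κ v` with `k` digits described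
by `Almost` (the rearrangements `v` of `k` digits, the palindromes, the integers with independent pairs of mirror digits), up to a
proportion of at most `4 X ^ (- δ / 2)`, have for the discriminant `d` of `ℚ(√n)` (`4 n = d m²`), ALL real `t ≥ X + 1` with
`t ^ W ≤ b ^ k` and ALL `j` with `(j + 1) ^ 2 ≤ t ^ (δ / 2)`: the number of the primes `p < t` in `T j` which split in the field with
the discriminant `d` differs from half of the number of the primes `p < t` in `T j` by at most `3 t ^ δ` times the square root of the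
number of the primes `p < 2 t` in `T j` (or of `1`). -/
theorem result (b : ℕ) (hb : 2 ≤ b) (η : ℝ) (hη : 0 < η) (δ : ℝ) (hδ : 0 < δ) (hδ1 : δ ≤ 1 / 2) : ∃ W : ℕ, 1 ≤ W ∧
    ∀ κ : ℤ, κ ≠ 0 → ∃ X₀ : ℕ, ∀ X : ℕ, X₀ ≤ X → ∀ k : ℕ, 2 ≤ k → ∀ c : ℤ, ∀ T : ℕ → Set ℕ,
    (∀ p j j', p ∈ T j → p ∈ T j' → j = j') →
    Almost b k κ c η (4 * (X : ℝ) ^ (-(δ / 2))) (fun n => ∀ d m : ℤ, Fund d → m ≠ 0 → 4 * n = d * m ^ 2 →
      ∀ t : ℝ, (X : ℝ) + 1 ≤ t → t ^ W ≤ (b : ℝ) ^ k → ∀ j : ℕ, ((j : ℝ) + 1) ^ 2 ≤ t ^ (δ / 2) →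
      |(split (T j) d t : ℝ) - 1 / 2 * total (T j) t| ≤ 3 * √(max 1 (total (T j) (2 * t) : ℝ)) * t ^ δ) := by
  classical
  obtain ⟨W, hW, H⟩ := twist_count b hb η hη δ hδ hδ1
  refine ⟨W, hW, fun κ hκ => ?_⟩
  obtain ⟨X₀, J⟩ := H κ hκ
  refine ⟨X₀ + 1, fun X hX k hk c T hT => ?_⟩
  have h1 := J X (by omega) k hk c T (fun _ => 1) (fun _ => Or.inl rfl) hT
  have h2 := J X (by omega) k hk c T (fun _ => -1) (fun _ => Or.inr rfl) hT
  have h3 := Almost.and h1 h2
  have e4 : 2 * (X : ℝ) ^ (-(δ / 2)) + 2 * (X : ℝ) ^ (-(δ / 2)) = 4 * (X : ℝ) ^ (-(δ / 2)) := by ring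
  rw [e4] at h3
  refine Almost.mono h3 ?_
  intro n hn d m hd hm hdm t ht htW j hj
  have hX1 : (1 : ℝ) ≤ X := by exact_mod_cast (by omega : 1 ≤ X)
  have ht1 : (1 : ℝ) ≤ t := by linarith
  have ht0 : (0 : ℝ) < t := by linarith
  obtain ⟨x, hx⟩ : ∃ x, x = ⌈t⌉₊ - 1 := ⟨_, rfl⟩
  have hc1 : 1 ≤ ⌈t⌉₊ := by
    rw [Nat.one_le_ceil_iff]
    linarith
  have hxt : (x : ℝ) < t := by
    rw [lt_iff t ht1, hx]
  have htx : t ≤ (x : ℝ) + 1 := by
    have h5 := Nat.le_ceil t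
    have h6 : (⌈t⌉₊ : ℝ) = (x : ℝ) + 1 := by
      rw [hx]
      push_cast [Nat.cast_sub hc1]
      ring
    linarith
  have hXx : X ≤ x := by
    have h5 : (X : ℝ) ≤ x := by linarith
    exact_mod_cast h5
  have hxW : x ^ W ≤ b ^ k := by
    have h5 : (x : ℝ) ^ W ≤ (b : ℝ) ^ k := (pow_le_pow_left₀ (Nat.cast_nonneg _) hxt.le W).trans htW
    exact_mod_cast h5
  have hx1 : (1 : ℝ) ≤ x := by
    have : (X : ℝ) ≤ x := by exact_mod_cast hXx
    linarith
  have hjx : (j : ℝ) ≤ (x : ℝ) ^ (δ / 2) := by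
    have h5 : t ≤ 2 * x := by linarith
    have h6 : t ^ (δ / 2) ≤ 2 * (x : ℝ) ^ (δ / 2) := by
      calc t ^ (δ / 2) ≤ (2 * x) ^ (δ / 2) := Real.rpow_le_rpow ht0.le h5 (by linarith)
        _ = 2 ^ (δ / 2) * (x : ℝ) ^ (δ / 2) := Real.mul_rpow (by norm_num) (by linarith)
        _ ≤ 2 ^ (1 : ℝ) * (x : ℝ) ^ (δ / 2) := by
            apply mul_le_mul_of_nonneg_right _ (by positivity)
            exact Real.rpow_le_rpow_of_exponent_le (by norm_num) (by linarith)
        _ = _ := by rw [Real.rpow_one]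
    have h7 : (0 : ℝ) ≤ j := Nat.cast_nonneg _
    nlinarith
  have hA := (hn.1 x hXx hxW j hjx)
  have hB := (hn.2 x hXx hxW j hjx)
  obtain ⟨V, hV⟩ : ∃ V : ℝ, V = √(max 1 (((pri (2 * x)).filter (fun p => p ≠ 2 ∧ p ∈ T j)).card : ℝ)) * (x : ℝ) ^ δ := ⟨_, rfl⟩
  obtain ⟨A, hAd⟩ : ∃ A : Finset ℕ, A = (pri x).filter (fun p => p ≠ 2 ∧ p ∈ T j ∧ jacobiSym n p = 1) := ⟨_, rfl⟩
  obtain ⟨B, hBd⟩ : ∃ B : Finset ℕ, B = (pri x).filter (fun p => p ≠ 2 ∧ p ∈ T j ∧ jacobiSym n p = -1) := ⟨_, rfl⟩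
  obtain ⟨M, hM⟩ : ∃ M : Finset ℕ, M = (pri x).filter (fun p => p ≠ 2 ∧ p ∈ T j) := ⟨_, rfl⟩
  obtain ⟨M', hM'⟩ : ∃ M' : Finset ℕ, M' = (pri x).filter (fun p => p ∈ T j) := ⟨_, rfl⟩
  obtain ⟨S, hS⟩ : ∃ S : Finset ℕ, S = (pri x).filter (fun p => p ∈ T j ∧ ¬ ((p : ℤ) ∣ d) ∧ ∃ x : ℤ, (4 * (p : ℤ)) ∣ x ^ 2 - d) := ⟨_, rfl⟩
  have eS : split (T j) d t = S.card := by
    unfold split
    rw [← Set.ncard_coe_finset]
    congr 1
    ext p
    rw [hS]
    simp only [Set.mem_setOf_eq, coe_filter, mem_pri]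
    rw [lt_iff t ht1 p, ← hx]
    tauto
  have eM : total (T j) t = M'.card := by
    unfold total
    rw [← Set.ncard_coe_finset]
    congr 1
    ext p
    rw [hM']
    simp only [Set.mem_setOf_eq, coe_filter, mem_pri]
    rw [lt_iff t ht1 p, ← hx]
    tauto
  have hVt : V ≤ √(max 1 (total (T j) (2 * t) : ℝ)) * t ^ δ := by
    rw [hV]
    apply mul_le_mul _ (Real.rpow_le_rpow (by linarith) hxt.le hδ.le) (by positivity) (Real.sqrt_nonneg _)
    apply Real.sqrt_le_sqrt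
    apply max_le_max le_rfl
    have h5 : ((pri (2 * x)).filter (fun p => p ≠ 2 ∧ p ∈ T j)).card ≤ total (T j) (2 * t) := by
      unfold total
      rw [← Set.ncard_coe_finset]
      apply Set.ncard_le_ncard
      · intro p hp
        rw [coe_filter, Set.mem_setOf_eq, mem_pri] at hp
        refine ⟨hp.1.2, hp.2.2, ?_⟩
        have h6 : (p : ℝ) ≤ 2 * x := by exact_mod_cast hp.1.1
        linarith
      · apply Set.Finite.subset (Set.finite_Iio (⌈2 * t⌉₊))
        intro p hp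
        exact Nat.lt_ceil.2 hp.2.2
    exact_mod_cast h5
  have hV1 : 1 ≤ V := by
    rw [hV]
    apply one_le_mul_of_one_le_of_one_le
    · rw [Real.one_le_sqrt]
      exact le_max_left _ _
    · exact Real.one_le_rpow hx1 hδ.le
  have hAS : A.card ≤ S.card := by
    apply card_le_card
    intro p hp
    rw [hAd, mem_filter] at hp
    rw [hS, mem_filter]
    exact ⟨hp.1, hp.2.2.1, splits (mem_pri.1 hp.1).2 hp.2.1 hd hdm hp.2.2.2⟩
  have hSB : S.card + B.card ≤ M'.card := by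
    have hdis : Disjoint S B := by
      rw [disjoint_left]
      intro p hp hp'
      rw [hS, mem_filter] at hp
      rw [hBd, mem_filter] at hp'
      exact not_splits (mem_pri.1 hp.1).2 hp'.2.1 hdm hp'.2.2.2 hp.2.2.2
    rw [← card_union_of_disjoint hdis]
    apply card_le_card
    intro p hp
    rw [mem_union, hS, hBd, mem_filter, mem_filter] at hp
    rw [hM', mem_filter]
    rcases hp with hp | hp
    · exact ⟨hp.1, hp.2.1⟩
    · exact ⟨hp.1, hp.2.2.1⟩
  have hMM : M'.card ≤ M.card + 1 := by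
    have h5 : M' ⊆ M ∪ {2} := by
      intro p hp
      rw [hM', mem_filter] at hp
      rw [mem_union, hM, mem_filter, mem_singleton]
      by_cases h6 : p = 2
      · exact Or.inr h6
      · exact Or.inl ⟨hp.1, h6, hp.2⟩
    refine (card_le_card h5).trans ((card_union_le _ _).trans ?_)
    rw [card_singleton]
  have hMM2 : M.card ≤ M'.card := by
    apply card_le_card
    intro p hp
    rw [hM, mem_filter] at hp
    rw [hM', mem_filter]
    exact ⟨hp.1, hp.2.2⟩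
  have r1 : (A.card : ℝ) ≤ S.card := by exact_mod_cast hAS
  have r2 : (S.card : ℝ) + B.card ≤ M'.card := by exact_mod_cast hSB
  have r3 : (M'.card : ℝ) ≤ M.card + 1 := by exact_mod_cast hMM
  have r4 : (M.card : ℝ) ≤ M'.card := by exact_mod_cast hMM2
  have hA' : |(A.card : ℝ) - 1 / 2 * M.card| ≤ 2 * V := by
    rw [hAd, hM, hV, ← mul_assoc]
    exact hA
  have hB' : |(B.card : ℝ) - 1 / 2 * M.card| ≤ 2 * V := by
    rw [hBd, hM, hV, ← mul_assoc]
    exact hB
  rw [eS, eM, mul_assoc]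
  rw [abs_le] at hA' hB' ⊢
  constructor <;> linarith [hA'.1, hA'.2, hB'.1, hB'.2]

end Pool.Agent.Results.MP_aaa0df_nt.DigitFamilies
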