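import Pool.Agent.R418.SI.D
import Pool.Agent.Y549.SP.Fin2

set_option autoImplicit false

/-!
# Small split primes: almost all terms of every very short arithmetic progression

Let `t = a + q j`, `j < X`, be an ARBITRARY arithmetic progression of natural numbers of length `X`
(an interval if `q = 1`), all of whose terms lie between `T₀` and `T₀ ^ 2`, where the length `X`
need only be a power of the logarithm: `(log T₀) ^ C ≤ X ≤ exp ((log T₀) ^ (2 / A))`.  There is no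
condition on the modulus `q` (it may be as large as `T₀ ^ 2 / X`), or on `gcd (a, q)`.  Then, up to
`K X ^ (1 / 2 + 1 / (2 A) + ε)` exceptional `j`:

(i) if `d = - t` is a fundamental discriminant then half of the primes below the threshold
`(log |d|) ^ 2 (log log |d|) ^ 2` of the question split in the field of discriminant `d`, up to a
relative error `η`;

(ii) half of the primes `p` below the threshold (of `- t`) are such that `p` does not divide `t` and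
`- t` is a square modulo `p` (here `- t` is any term, fundamental or not).

The constants `C`, `K` do not depend on `T₀`, `a`, `q`, `X`.  The same holds for the primes in a set
`Q` with at least `κ y ^ ρ / log y` elements up to `y`, `ρ > 1 / 2`, with the exponent
`1 - ρ / 2 + 1 / (2 A) + ε`.

(iii) In particular, in every interval `[T, T + (log T) ^ C]`, and in every progression of this length
between `T` and `T ^ 2`, there is a `t` as in (ii).
-/

namespace Pool.Agent.Results.MP_aaa0df_nt.ShortProgressions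

/-- the fundamental discriminants `d < 0`, that is, the discriminants of the imaginary quadratic
fields (as in the frozen statement) -/
def NegFund (d : ℤ) : Prop := d < 0 ∧ ((d % 4 = 1 ∧ Squarefree d) ∨
  ∃ m : ℤ, d = 4 * m ∧ (m % 4 = 2 ∨ m % 4 = 3) ∧ Squarefree m)

/-- the primes `p ≤ y` in the set `Q` -/
def primesIn (Q : Set ℕ) (y : ℕ) : Set ℕ := {p | p.Prime ∧ p ≤ y ∧ p ∈ Q}

/-- at least `κ y ^ ρ / log y` primes `p ≤ y` lie in `Q`, for all large `y`, for some `κ > 0` -/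
def Thick (Q : Set ℕ) (ρ : ℝ) : Prop := ∃ κ : ℝ, 0 < κ ∧ ∃ y₀ : ℕ, ∀ y : ℕ, y₀ ≤ y →
  κ * (y : ℝ) ^ ρ ≤ (primesIn Q y).ncard * Real.log y

/-- the threshold `(log |d|) ^ 2 (log log |d|) ^ 2` of the question -/
noncomputable def thr (d : ℤ) : ℝ :=
  Real.log |(d : ℝ)| ^ 2 * Real.log (Real.log |(d : ℝ)|) ^ 2

/-- the number of the primes in `Q` below the threshold which split in the field of discriminant
`d` (`p` does not divide `d` and `d` is a square modulo `4 p`, as in the frozen statement); `N(d)`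
of the question if `Q` contains all primes -/
noncomputable def NQ (Q : Set ℕ) (d : ℤ) : ℕ := Set.ncard {p : ℕ | p.Prime ∧ p ∈ Q ∧
  (p : ℝ) < thr d ∧ ¬ (p : ℤ) ∣ d ∧ ∃ x : ℤ, (4 * (p : ℤ)) ∣ x ^ 2 - d}

/-- the number of the primes `p` in `Q` below the threshold (of `- t`) such that `p` does not divide
`t` and `- t` is a square modulo `p` -/
noncomputable def NS (Q : Set ℕ) (t : ℕ) : ℕ := Set.ncard {p : ℕ | p.Prime ∧ p ∈ Q ∧
  (p : ℝ) < thr (-(t : ℤ)) ∧ ¬ p ∣ t ∧ ∃ x : ℤ, (p : ℤ) ∣ x ^ 2 + t}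

/-- the number of the primes in `Q` below the threshold -/
noncomputable def MQ (Q : Set ℕ) (d : ℤ) : ℕ := Set.ncard {p : ℕ | p.Prime ∧ p ∈ Q ∧
  (p : ℝ) < thr d}

/-- the terms `t = a + q j`, `j < X`, such that `- t` is a fundamental discriminant for which it is
not true that half of the primes below the threshold split -/
def BadFund (Q : Set ℕ) (η : ℝ) (a q X : ℕ) : Set ℕ := {j : ℕ | j < X ∧
  NegFund (-((a + q * j : ℕ) : ℤ)) ∧
    ¬ |2 * (NQ Q (-((a + q * j : ℕ) : ℤ)) : ℝ) - MQ Q (-((a + q * j : ℕ) : ℤ))| ≤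
      η * MQ Q (-((a + q * j : ℕ) : ℤ))}

/-- the terms `t = a + q j`, `j < X`, for which it is not true that half of the primes below the
threshold are such that `- t` is a non-zero square modulo `p` -/
def BadAll (Q : Set ℕ) (η : ℝ) (a q X : ℕ) : Set ℕ := {j : ℕ | j < X ∧
    ¬ |2 * (NS Q (a + q * j) : ℝ) - MQ Q (-((a + q * j : ℕ) : ℤ))| ≤
      η * MQ Q (-((a + q * j : ℕ) : ℤ))}

lemma two_sets {P₁ P₂ : ℕ → Prop} (X : ℕ) (b : ℝ)
    (h : ∀ T : Finset ℕ, (∀ j ∈ T, j < X ∧ (P₁ j ∨ P₂ j)) → (T.card : ℝ) ≤ b) :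
    (({j : ℕ | j < X ∧ (P₁ j ∨ P₂ j)}).ncard : ℝ) ≤ b := by
  classical
  have hfin : ({j : ℕ | j < X ∧ (P₁ j ∨ P₂ j)} : Set ℕ).Finite :=
    (Set.finite_Iio X).subset fun j hj => hj.1
  rw [Set.ncard_eq_toFinset_card _ hfin]
  refine h _ fun j hj => ?_
  exact (Set.Finite.mem_toFinset hfin).1 hj

theorem result :
    Thick Set.univ 1 ∧
    (∀ (A ρ η ε : ℝ) (Q : Set ℕ), 2 ≤ A → 1 / 2 < ρ → ρ ≤ 1 → 0 < η → 0 < ε → Thick Q ρ →
      ∃ C K : ℝ, 0 < C ∧ 0 < K ∧ ∀ T₀ a q X : ℕ, 1 ≤ q → T₀ ≤ a → a + q * X ≤ T₀ ^ 2 →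
        Real.log T₀ ^ C ≤ X → (X : ℝ) ≤ Real.exp (Real.log T₀ ^ (2 / A)) →
          ((BadFund Q η a q X ∪ BadAll Q η a q X).ncard : ℝ) ≤
            K * (X : ℝ) ^ (1 - ρ / 2 + 1 / (2 * A) + ε)) ∧
    (∀ η : ℝ, 0 < η → ∃ C D : ℝ, 0 < C ∧ ∀ T₀ a q : ℕ, D ≤ T₀ → 1 ≤ q → T₀ ≤ a →
      (a : ℝ) + q * Real.log T₀ ^ C ≤ (T₀ : ℝ) ^ 2 → ∃ j : ℕ, (j : ℝ) ≤ Real.log T₀ ^ C ∧
        |2 * (NS Set.univ (a + q * j) : ℝ) - MQ Set.univ (-((a + q * j : ℕ) : ℤ))| ≤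
          η * MQ Set.univ (-((a + q * j : ℕ) : ℤ))) := by
  have h2 : ∀ (A ρ η ε : ℝ) (Q : Set ℕ), 2 ≤ A → 1 / 2 < ρ → ρ ≤ 1 → 0 < η → 0 < ε → Thick Q ρ →
      ∃ C K : ℝ, 0 < C ∧ 0 < K ∧ ∀ T₀ a q X : ℕ, 1 ≤ q → T₀ ≤ a → a + q * X ≤ T₀ ^ 2 →
        Real.log T₀ ^ C ≤ X → (X : ℝ) ≤ Real.exp (Real.log T₀ ^ (2 / A)) →
          ((BadFund Q η a q X ∪ BadAll Q η a q X).ncard : ℝ) ≤
            K * (X : ℝ) ^ (1 - ρ / 2 + 1 / (2 * A) + ε) := by
    intro A ρ η ε Q hA hρ hρ1 hη hε hQ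
    obtain ⟨C, K, hC, hK, h⟩ := Pool.Agent.R418.SI.main A ρ η ε Q hA hρ hρ1 hη hε hQ
    refine ⟨C, K, hC, hK, fun T₀ a q X hq ha1 ha2 h1 h3 => ?_⟩
    have h4 := two_sets X _ (h T₀ a q X hq ha1 ha2 h1 h3)
    have h5 : BadFund Q η a q X ∪ BadAll Q η a q X = {j : ℕ | j < X ∧
        ((NegFund (-((a + q * j : ℕ) : ℤ)) ∧
          ¬ |2 * (NQ Q (-((a + q * j : ℕ) : ℤ)) : ℝ) - MQ Q (-((a + q * j : ℕ) : ℤ))| ≤
            η * MQ Q (-((a + q * j : ℕ) : ℤ))) ∨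
         ¬ |2 * (NS Q (a + q * j) : ℝ) - MQ Q (-((a + q * j : ℕ) : ℤ))| ≤
            η * MQ Q (-((a + q * j : ℕ) : ℤ)))} := by
      ext j
      constructor
      · rintro (⟨b1, b2⟩ | ⟨b1, b2⟩)
        · exact ⟨b1, Or.inl b2⟩
        · exact ⟨b1, Or.inr b2⟩
      · rintro ⟨b1, b2 | b2⟩
        · exact Or.inl ⟨b1, b2⟩
        · exact Or.inr ⟨b1, b2⟩
    rw [h5]
    exact h4
  refine ⟨Pool.Agent.Y549.SP.Fin2.thick_univ, h2, fun η hη => ?_⟩
  obtain ⟨C, K, hC, hK, h⟩ := h2 4 1 η (1 / 16) Set.univ (by norm_num) (by norm_num) le_rfl hη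
    (by norm_num) Pool.Agent.Y549.SP.Fin2.thick_univ
  obtain ⟨C', hC'⟩ : ∃ C' : ℝ, C' = C + 1 := ⟨_, rfl⟩
  have hC'0 : 0 < C' := by rw [hC']; linarith
  -- eventual conditions on `l = log T₀`
  have hev1 : ∀ᶠ l : ℝ in Filter.atTop, l ^ C' ≤ Real.exp (l ^ (2 / 4 : ℝ)) := by
    have h5 : ∀ᶠ s : ℝ in Filter.atTop, ‖s ^ (2 * C')‖ ≤ 1 * ‖Real.exp (1 * s)‖ :=
      (isLittleO_rpow_exp_pos_mul_atTop (2 * C') one_pos).def one_pos
    have hsq : Filter.Tendsto (fun l : ℝ => l ^ (2 / 4 : ℝ)) Filter.atTop Filter.atTop :=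
      tendsto_rpow_atTop (by norm_num)
    filter_upwards [hsq.eventually h5, Filter.eventually_ge_atTop 0] with l b1 b2
    rw [one_mul, one_mul, Real.norm_of_nonneg (by positivity),
      Real.norm_of_nonneg (Real.exp_pos _).le, ← Real.rpow_mul b2] at b1
    refine le_trans (le_of_eq ?_) b1
    congr 1
    ring
  have hev2 : ∀ᶠ l : ℝ in Filter.atTop, l ^ C + 1 ≤ l ^ C' := by
    filter_upwards [Filter.eventually_ge_atTop 2] with l b1
    have b0 : (0 : ℝ) < l := by linarith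
    have b2 : (1 : ℝ) ≤ l ^ C := Real.one_le_rpow (by linarith) hC.le
    rw [hC', Real.rpow_add b0, Real.rpow_one]
    nlinarith
  have hev3 : ∀ᶠ l : ℝ in Filter.atTop, (K + 1) ^ (4 : ℝ) + 1 ≤ l ^ C' :=
    (tendsto_rpow_atTop hC'0).eventually (Filter.eventually_ge_atTop _)
  obtain ⟨L, hL⟩ := Filter.eventually_atTop.1 (hev1.and (hev2.and hev3))
  refine ⟨C', Real.exp (max L 0), hC'0, ?_⟩
  intro T₀ a q hT hq ha haq
  have hTpos : (0 : ℝ) < T₀ := lt_of_lt_of_le (Real.exp_pos _) hT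
  have hl1 : max L 0 ≤ Real.log T₀ := (Real.le_log_iff_exp_le hTpos).2 hT
  obtain ⟨l, hl⟩ : ∃ l : ℝ, l = Real.log T₀ := ⟨_, rfl⟩
  rw [← hl] at hl1 haq ⊢
  have hl0 : 0 ≤ l := (le_max_right _ _).trans hl1
  obtain ⟨c1, c2, c3⟩ := hL l ((le_max_left _ _).trans hl1)
  obtain ⟨X, hX⟩ : ∃ X : ℕ, X = ⌊l ^ C'⌋₊ := ⟨_, rfl⟩
  have hXle : (X : ℝ) ≤ l ^ C' := by rw [hX]; exact Nat.floor_le (by positivity)
  have hXge : l ^ C' < (X : ℝ) + 1 := by rw [hX]; exact Nat.lt_floor_add_one _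
  have hK1 : (1 : ℝ) ≤ K + 1 := by linarith
  have hXK : (K + 1) ^ (4 : ℝ) < X + 0 := by
    rcases lt_or_ge ((K + 1) ^ (4 : ℝ)) (X : ℝ) with h6 | h6
    · linarith
    · exfalso
      linarith
  rw [add_zero] at hXK
  have hX0 : (0 : ℝ) < X := lt_trans (by positivity) hXK
  have haX : a + q * X ≤ T₀ ^ 2 := by
    have : ((a + q * X : ℕ) : ℝ) ≤ ((T₀ ^ 2 : ℕ) : ℝ) := by
      push_cast
      have := mul_le_mul_of_nonneg_left hXle (Nat.cast_nonneg (α := ℝ) q)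
      linarith
    exact_mod_cast this
  have h7 := h T₀ a q X hq ha haX (by rw [← hl]; linarith) (by rw [← hl]; exact hXle.trans c1)
  have h8 : K * (X : ℝ) ^ (1 - 1 / 2 + 1 / (2 * 4) + 1 / 16 : ℝ) < X := by
    have e1 : (X : ℝ) = (X : ℝ) ^ (5 / 16 : ℝ) *
        (X : ℝ) ^ (1 - 1 / 2 + 1 / (2 * 4) + 1 / 16 : ℝ) := by
      rw [← Real.rpow_add hX0]
      norm_num
    have e2 : K < (X : ℝ) ^ (5 / 16 : ℝ) := by
      have e3 : ((K + 1) ^ (4 : ℝ)) ^ (5 / 16 : ℝ) ≤ (X : ℝ) ^ (5 / 16 : ℝ) :=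
        Real.rpow_le_rpow (by positivity) hXK.le (by norm_num)
      rw [← Real.rpow_mul (by linarith)] at e3
      have e4 : (K + 1) ^ (1 : ℝ) ≤ (K + 1) ^ (4 * (5 / 16) : ℝ) :=
        Real.rpow_le_rpow_of_exponent_le hK1 (by norm_num)
      rw [Real.rpow_one] at e4
      linarith
    have e5 : 0 < (X : ℝ) ^ (1 - 1 / 2 + 1 / (2 * 4) + 1 / 16 : ℝ) := Real.rpow_pos_of_pos hX0 _
    calc K * (X : ℝ) ^ (1 - 1 / 2 + 1 / (2 * 4) + 1 / 16 : ℝ) <
        (X : ℝ) ^ (5 / 16 : ℝ) * (X : ℝ) ^ (1 - 1 / 2 + 1 / (2 * 4) + 1 / 16 : ℝ) :=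
          mul_lt_mul_of_pos_right e2 e5
      _ = X := e1.symm
  by_contra hcon
  push Not at hcon
  have h9 : (Set.Iio X : Set ℕ) ⊆ BadFund Set.univ η a q X ∪ BadAll Set.univ η a q X := by
    intro j hj
    refine Or.inr ⟨hj, ?_⟩
    have hj' : (j : ℝ) ≤ l ^ C' := by
      have : (j : ℝ) ≤ X := by exact_mod_cast (Set.mem_Iio.1 hj).le
      linarith
    exact not_le.2 (hcon j hj')
  have hfin : (BadFund Set.univ η a q X ∪ BadAll Set.univ η a q X).Finite := by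
    refine (Set.finite_Iio X).subset ?_
    rintro j (b | b)
    · exact b.1
    · exact b.1
  have h10 := Set.ncard_le_ncard h9 hfin
  have h11 : (Set.Iio X : Set ℕ).ncard = X := by
    rw [← Finset.coe_range, Set.ncard_coe_finset, Finset.card_range]
  rw [h11] at h10
  have h12 : (X : ℝ) ≤ ((BadFund Set.univ η a q X ∪ BadAll Set.univ η a q X).ncard : ℝ) := by
    exact_mod_cast h10
  linarith

end Pool.Agent.Results.MP_aaa0df_nt.ShortProgressions
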