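import Pool.Agent.R345.SS6

set_option autoImplicit false

/-!
# Small split primes in the quadratic fields given by arbitrary sumsets

Let `A`, `B` be ARBITRARY finite sets of integers, both contained in intervals of length `X`, let `D` be an
integer, and let `|D (a + b)| ≤ H` for all `a ∈ A`, `b ∈ B`.

(1) Sums of Legendre symbols: for every finite set `P` of odd primes `p ≤ y` such that every nonzero difference
of two elements of `A` (and of `B`) is divisible by at most `W` of them, the number of the pairs `(a, b)` with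
`|∑ p ∈ P, (D (a + b) | p)| ≥ η |P|` is at most `C (y W² / |P|²) ^ k |A| |B|`, if `|A|, |B| ≥ |P| ^ (2 k)`.

(2) For all but at most `C ((log X) ^ 2 / L) ^ k |A| |B|` of the pairs half of the primes `p ≤ y` split in the field
`ℚ(√(D (a + b)))`, up to the relative error `η`, for all `y` with `L ≤ y ≤ M`. Here `L ≥ (log H) ^ (1 + δ)`,
and `M ^ (2 k) ≤ |A|, |B|`.

(3) Let `|A|, |B| ≥ (log H) ^ (6 k)`. For all but at most `C (log X / (log H log log H)) ^ (2 k) |A| |B|` of the pairs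
half of the primes below the threshold `(log |d|) ^ 2 (log log |d|) ^ 2` of the question split in the field
`ℚ(√(D (a + b)))` of discriminant `d`, or `|d| < H ^ c`.
-/

namespace Pool.Agent.Results.MP_aaa0df_nt.SumsetPairs

open scoped Nat.Prime

/-- the discriminants of the quadratic fields, and `1` (for the negative ones see the frozen statement) -/
def Fund (d : ℤ) : Prop := (d % 4 = 1 ∧ Squarefree d) ∨
  (∃ m : ℤ, d = 4 * m ∧ (m % 4 = 2 ∨ m % 4 = 3) ∧ Squarefree m)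

/-- `p` splits in the field of discriminant `d` (as in the frozen statement) -/
def Splits (d : ℤ) (p : ℕ) : Prop := ¬ (p : ℤ) ∣ d ∧ ∃ x : ℤ, (4 * (p : ℤ)) ∣ x ^ 2 - d

/-- the number of the primes `p ≤ y` which split -/
noncomputable def S (d : ℤ) (y : ℕ) : ℕ := Set.ncard {p : ℕ | p.Prime ∧ p ≤ y ∧ Splits d p}

/-- Half of the primes `p ≤ y` split in the quadratic field `ℚ(√n)`, up to the relative error `η`, for all `y` with
`L ≤ y ≤ M` (`d` is the discriminant of `ℚ(√n)` if and only if it satisfies `Fund` and `n d` is a square). -/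
def Half (η L M : ℝ) (n : ℤ) : Prop := ∀ d : ℤ, Fund d → IsSquare (n * d) → ∀ y : ℕ, L ≤ y → (y : ℝ) ≤ M →
  |(S d y : ℝ) - (π y : ℝ) / 2| ≤ η * (π y : ℝ)

/-- the threshold `(log |d|) ^ 2 (log log |d|) ^ 2` of the question -/
noncomputable def threshold (d : ℤ) : ℝ := Real.log |(d : ℝ)| ^ 2 * Real.log (Real.log |(d : ℝ)|) ^ 2

/-- the number `N(d)` of the question -/
noncomputable def N (d : ℤ) : ℕ := Set.ncard {p : ℕ | p.Prime ∧ (p : ℝ) < threshold d ∧ Splits d p}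

/-- the number of all primes below the threshold -/
noncomputable def Y (d : ℤ) : ℕ := Set.ncard {p : ℕ | p.Prime ∧ (p : ℝ) < threshold d}

open Pool.Agent.R345.SS in
lemma S_eq (d : ℤ) (y : ℕ) : S d y = (Spl d y).card := by
  rw [← Set.ncard_coe_finset]
  unfold S
  congr 1
  ext p
  rw [Finset.mem_coe, mem_Spl, Set.mem_ofPred_eq]
  unfold Splits
  tauto

lemma lt_iff {t : ℝ} {p : ℕ} (hp : p.Prime) : (p : ℝ) < t ↔ p ≤ ⌈t⌉₊ - 1 := by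
  rw [← Nat.lt_ceil]
  have := hp.pos
  omega

open Pool.Agent.R345.SS in
lemma N_eq (d : ℤ) : N d = (Spl d (⌈thr d⌉₊ - 1)).card := by
  rw [← Set.ncard_coe_finset]
  unfold N
  congr 1
  ext p
  rw [Finset.mem_coe, mem_Spl, Set.mem_ofPred_eq]
  unfold Splits
  constructor
  · rintro ⟨h1, h2, h3⟩
    exact ⟨⟨(lt_iff h1).1 h2, h1⟩, h3⟩
  · rintro ⟨⟨h1, h2⟩, h3⟩
    exact ⟨h2, (lt_iff h2).2 h1, h3⟩

open Pool.Agent.R345.SS in
lemma Y_eq (d : ℤ) : Y d = π (⌈thr d⌉₊ - 1) := by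
  rw [← Nat.primesLE_card_eq_primeCounting, ← Set.ncard_coe_finset]
  unfold Y
  congr 1
  ext p
  rw [Finset.mem_coe, Nat.mem_primesLE, Set.mem_ofPred_eq]
  constructor
  · rintro ⟨h1, h2⟩
    exact ⟨(lt_iff h1).1 h2, h1⟩
  · rintro ⟨h1, h2⟩
    exact ⟨h2, (lt_iff h2).2 h1⟩

theorem result :
    (∀ (k : ℕ) (η : ℝ), 1 ≤ k → 0 < η → η ≤ 1 → ∃ C : ℝ, 0 < C ∧
      ∀ (P : Finset ℕ) (y W : ℝ) (A B : Finset ℤ) (D : ℤ), P.Nonempty →
        (∀ p ∈ P, p.Prime ∧ p ≠ 2 ∧ (p : ℝ) ≤ y) → 1 ≤ W →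
        (∀ a ∈ A, ∀ a' ∈ A, a ≠ a' → (Set.ncard {p : ℕ | p ∈ P ∧ (p : ℤ) ∣ a - a'} : ℝ) ≤ W) →
        (∀ b ∈ B, ∀ b' ∈ B, b ≠ b' → (Set.ncard {p : ℕ | p ∈ P ∧ (p : ℤ) ∣ b - b'} : ℝ) ≤ W) →
        (P.card : ℝ) ^ (2 * k) ≤ A.card → (P.card : ℝ) ^ (2 * k) ≤ B.card →
        (Set.ncard {z : ℤ × ℤ | z.1 ∈ A ∧ z.2 ∈ B ∧
            η * P.card ≤ |∑ p ∈ P, (jacobiSym (D * (z.1 + z.2)) p : ℝ)|} : ℝ) ≤
          C * (y * W ^ 2 / (P.card : ℝ) ^ 2) ^ k * (A.card * B.card)) ∧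
    (∀ (k : ℕ) (η δ : ℝ), 1 ≤ k → 0 < η → η ≤ 1 → 0 < δ → ∃ C : ℝ, 0 < C ∧
      ∀ (X H : ℕ) (u v D : ℤ) (A B : Finset ℤ) (L M : ℝ), 2 ≤ X → 2 ≤ H →
        (∀ a ∈ A, u ≤ a ∧ a ≤ u + X) → (∀ b ∈ B, v ≤ b ∧ b ≤ v + X) →
        (∀ a ∈ A, ∀ b ∈ B, |D * (a + b)| ≤ H) → Real.log H ^ (1 + δ) ≤ L →
        M ^ (2 * k) ≤ A.card → M ^ (2 * k) ≤ B.card →
        (Set.ncard {z : ℤ × ℤ | z.1 ∈ A ∧ z.2 ∈ B ∧ D * (z.1 + z.2) ≠ 0 ∧
            ¬ Half η L M (D * (z.1 + z.2))} : ℝ) ≤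
          C * (Real.log X ^ 2 / L) ^ k * (A.card * B.card)) ∧
    (∀ (k : ℕ) (η c : ℝ), 1 ≤ k → 0 < η → η ≤ 1 → 0 < c → ∃ C : ℝ, 0 < C ∧ ∃ H₀ : ℕ,
      ∀ (X H : ℕ) (u v D : ℤ) (A B : Finset ℤ), 2 ≤ X → H₀ ≤ H →
        (∀ a ∈ A, u ≤ a ∧ a ≤ u + X) → (∀ b ∈ B, v ≤ b ∧ b ≤ v + X) →
        (∀ a ∈ A, ∀ b ∈ B, |D * (a + b)| ≤ H) →
        Real.log H ^ (6 * k) ≤ A.card → Real.log H ^ (6 * k) ≤ B.card →
        (Set.ncard {z : ℤ × ℤ | z.1 ∈ A ∧ z.2 ∈ B ∧ D * (z.1 + z.2) ≠ 0 ∧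
            ∃ d : ℤ, Fund d ∧ IsSquare (D * (z.1 + z.2) * d) ∧ (H : ℝ) ^ c ≤ |(d : ℝ)| ∧
              ¬ |2 * (N d : ℝ) - Y d| ≤ η * Y d} : ℝ) ≤
          C * (Real.log X / (Real.log H * Real.log (Real.log H))) ^ (2 * k) * (A.card * B.card)) := by
  classical
  have hfil : ∀ (P : Finset ℕ) (h : ℤ), Set.ncard {p : ℕ | p ∈ P ∧ (p : ℤ) ∣ h} = (P.filter (fun p : ℕ => (p : ℤ) ∣ h)).card := by
    intro P h
    rw [← Set.ncard_coe_finset]
    congr 1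
    ext p
    simp
  refine ⟨?_, ?_, ?_⟩
  · intro k η hk hη hη1
    obtain ⟨C, hC, h⟩ := Pool.Agent.R345.SS.excep k hk η hη hη1
    refine ⟨C, hC, ?_⟩
    intro P y W A B D hne hP hW hA hB hcA hcB
    have h1 := h P y W A B D hne hP hW (fun a ha a' ha' hn => by rw [← hfil]; exact hA a ha a' ha' hn)
      (fun a ha a' ha' hn => by rw [← hfil]; exact hB a ha a' ha' hn) hcA hcB
    rw [← Set.ncard_coe_finset ((A ×ˢ B).filter (fun z : ℤ × ℤ => η * P.card ≤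
      |∑ p ∈ P, Pool.Agent.R345.SS.J (D * (z.1 + z.2)) p|))] at h1
    refine le_trans (le_of_eq ?_) h1
    refine congrArg (fun s : Set (ℤ × ℤ) => (s.ncard : ℝ)) ?_
    ext z
    rw [Finset.mem_coe, Finset.mem_filter, Finset.mem_product, Set.mem_ofPred_eq]
    unfold Pool.Agent.R345.SS.J
    tauto
  · intro k η δ hk hη hη1 hδ
    obtain ⟨C, hC, h⟩ := Pool.Agent.R345.SS.split_pairs k hk η δ hη hη1 hδ
    refine ⟨C, hC, ?_⟩
    intro X H u v D A B L M hX hH hA hB hDH hL hcA hcB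
    have hfin : {z : ℤ × ℤ | z.1 ∈ A ∧ z.2 ∈ B ∧ D * (z.1 + z.2) ≠ 0 ∧ ¬ Half η L M (D * (z.1 + z.2))}.Finite :=
      (Finset.finite_toSet (A ×ˢ B)).subset fun z hz => Finset.mem_coe.2 (Finset.mem_product.2 ⟨hz.1, hz.2.1⟩)
    rw [Set.ncard_eq_toFinset_card _ hfin]
    refine h X H u v D A B L hX hH (fun a ha => Finset.mem_Icc.2 (hA a ha)) (fun b hb => Finset.mem_Icc.2 (hB b hb)) hDH hL _ ?_
    intro z hz
    rw [Set.Finite.mem_toFinset] at hz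
    obtain ⟨h1, h2, h3, h4⟩ := hz
    unfold Half at h4
    push Not at h4
    obtain ⟨d, hd, hsq, y, hLy, hyM, hbad⟩ := h4
    have hpow : (y : ℝ) ^ (2 * k) ≤ M ^ (2 * k) := pow_le_pow_left₀ (Nat.cast_nonneg _) hyM _
    refine ⟨Finset.mem_product.2 ⟨h1, h2⟩, h3, d, hd, hsq, y, hLy, hpow.trans hcA, hpow.trans hcB, ?_⟩
    rw [S_eq] at hbad
    exact not_le.2 hbad
  · intro k η c hk hη hη1 hc
    obtain ⟨C, hC, H₀, -, h⟩ := Pool.Agent.R345.SS.threshold_pairs k hk η (min c 1) hη hη1 (lt_min hc one_pos) (min_le_right _ _)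
    refine ⟨C, hC, max H₀ 1, ?_⟩
    intro X H u v D A B hX hH hA hB hDH hcA hcB
    have hH1 : (1 : ℝ) ≤ H := by exact_mod_cast (le_max_right _ _).trans hH
    have hfin : {z : ℤ × ℤ | z.1 ∈ A ∧ z.2 ∈ B ∧ D * (z.1 + z.2) ≠ 0 ∧
            ∃ d : ℤ, Fund d ∧ IsSquare (D * (z.1 + z.2) * d) ∧ (H : ℝ) ^ c ≤ |(d : ℝ)| ∧
              ¬ |2 * (N d : ℝ) - Y d| ≤ η * Y d}.Finite :=
      (Finset.finite_toSet (A ×ˢ B)).subset fun z hz => Finset.mem_coe.2 (Finset.mem_product.2 ⟨hz.1, hz.2.1⟩)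
    rw [Set.ncard_eq_toFinset_card _ hfin]
    refine h X H u v D A B hX ((le_max_left _ _).trans hH) (fun a ha => Finset.mem_Icc.2 (hA a ha)) (fun b hb => Finset.mem_Icc.2 (hB b hb)) hDH hcA hcB _ ?_
    intro z hz
    rw [Set.Finite.mem_toFinset] at hz
    obtain ⟨h1, h2, h3, d, hd, hsq, hdc, hbad⟩ := hz
    refine ⟨Finset.mem_product.2 ⟨h1, h2⟩, h3, d, hd, hsq, ?_, ?_⟩
    · exact (Real.rpow_le_rpow_of_exponent_le hH1 (min_le_left _ _)).trans hdc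
    · rw [N_eq, Y_eq] at hbad
      exact hbad

end Pool.Agent.Results.MP_aaa0df_nt.SumsetPairs
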