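import Pool.Agent.R418.UP.D
import Pool.Agent.Y549.SP.Fin2

set_option autoImplicit false

/-!
# Small split primes in the fields `ℚ(√f(j))`, uniformly in the polynomial

Let `f` be ANY polynomial with integer coefficients, of degree between `1` and `D`, without multiple
roots, whose coefficients have absolute values at most `T₀ ^ B`.  Let the number `N` of values be at
least a power of the logarithm and not larger than a small power of `T₀` of a suitable form: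
`(log T₀) ^ C ≤ N ≤ exp ((log T₀) ^ (2 / A))`, `A ≥ 2` (so up to `N = T₀` if `A = 2`).  Then, up to
`K N ^ (2 / 3 + 1 / (3 A) + ε)` exceptional `j < N`:

(i) if `d` is the discriminant of the field `ℚ(√f(j))`, and this field is imaginary, and
`|d| ≥ T₀`, then half of the primes below the threshold `(log |d|) ^ 2 (log log |d|) ^ 2` of the
question split in the field, up to a relative error `η`;

(ii) if `|f(j)| ≥ T₀` then half of the primes `p` below the threshold (of `f(j)`) are such that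
`p` does not divide `f(j)` and `f(j)` is a square modulo `p`.

The constants `C`, `K` depend only on `A`, `B`, `D`, `η`, `ε`, and not on `f`, `T₀`, `N`.  The same
holds for the primes in a set `Q` with at least `κ y ^ ρ / log y` elements up to `y`, `ρ > 1 / 2`,
with the exponent `1 - ρ / 3 + 1 / (3 A) + ε`.
-/

namespace Pool.Agent.Results.MP_aaa0df_nt.UniformPolynomials

open Polynomial

/-- the fundamental discriminants `d < 0`, that is, the discriminants of the imaginary quadratic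
fields (as in the frozen statement) -/
def NegFund (d : ℤ) : Prop := d < 0 ∧ ((d % 4 = 1 ∧ Squarefree d) ∨
  ∃ m : ℤ, d = 4 * m ∧ (m % 4 = 2 ∨ m % 4 = 3) ∧ Squarefree m)

/-- the primes `p ≤ y` in the set `Q` -/
def primesIn (Q : Set ℕ) (y : ℕ) : Set ℕ := {p | p.Prime ∧ p ≤ y ∧ p ∈ Q}

/-- at least `κ y ^ ρ / log y` primes `p ≤ y` lie in `Q`, for all large `y`, for some `κ > 0` -/
def Thick (Q : Set ℕ) (ρ : ℝ) : Prop := ∃ κ : ℝ, 0 < κ ∧ ∃ y₀ : ℕ, ∀ y : ℕ, y₀ ≤ y →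
  κ * (y : ℝ) ^ ρ ≤ (primesIn Q y).ncard * Real.log y

/-- the threshold `(log |d|) ^ 2 (log log |d|) ^ 2` of the question -/
noncomputable def thr (d : ℤ) : ℝ :=
  Real.log |(d : ℝ)| ^ 2 * Real.log (Real.log |(d : ℝ)|) ^ 2

/-- the number of the primes in `Q` below the threshold which split in the field of discriminant
`d` (`p` does not divide `d` and `d` is a square modulo `4 p`, as in the frozen statement); `N(d)`
of the question if `Q` contains all primes -/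
noncomputable def NQ (Q : Set ℕ) (d : ℤ) : ℕ := Set.ncard {p : ℕ | p.Prime ∧ p ∈ Q ∧
  (p : ℝ) < thr d ∧ ¬ (p : ℤ) ∣ d ∧ ∃ x : ℤ, (4 * (p : ℤ)) ∣ x ^ 2 - d}

/-- the number of the primes `p` in `Q` below the threshold of `a` such that `p` does not divide `a`
and `a` is a square modulo `p` -/
noncomputable def NZ (Q : Set ℕ) (a : ℤ) : ℕ := Set.ncard {p : ℕ | p.Prime ∧ p ∈ Q ∧
  (p : ℝ) < thr a ∧ ¬ (p : ℤ) ∣ a ∧ ∃ x : ℤ, (p : ℤ) ∣ x ^ 2 - a}

/-- the number of the primes in `Q` below the threshold -/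
noncomputable def MQ (Q : Set ℕ) (d : ℤ) : ℕ := Set.ncard {p : ℕ | p.Prime ∧ p ∈ Q ∧
  (p : ℝ) < thr d}

/-- the polynomials of degree between `1` and `D` without multiple roots (separable over `ℚ`) whose
coefficients have absolute values at most `M` -/
def Fam (D : ℕ) (M : ℝ) : Set ℤ[X] := {f | 1 ≤ f.natDegree ∧ f.natDegree ≤ D ∧
  (f.map (Int.castRingHom ℚ)).Separable ∧ ∀ i, |((f.coeff i : ℤ) : ℝ)| ≤ M}

/-- `d` is the discriminant of the imaginary quadratic field `ℚ(√a)`: `d` is a negative fundamental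
discriminant and `a d` is a non-zero square -/
def IsDisc (a d : ℤ) : Prop := NegFund d ∧ ∃ z : ℤ, z ≠ 0 ∧ a * d = z * z

/-- the `j < N` such that `ℚ(√f(j))` is an imaginary quadratic field of discriminant `d`,
`|d| ≥ T₀`, for which it is not true that half of the primes below the threshold split -/
def BadFund (Q : Set ℕ) (η : ℝ) (f : ℤ[X]) (T₀ N : ℕ) : Set ℕ := {j : ℕ | j < N ∧
  ∃ d : ℤ, IsDisc (f.eval (j : ℤ)) d ∧ (T₀ : ℝ) ≤ |(d : ℝ)| ∧
    ¬ |2 * (NQ Q d : ℝ) - MQ Q d| ≤ η * MQ Q d}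

/-- the `j < N` with `|f(j)| ≥ T₀` for which it is not true that half of the primes below the
threshold are such that `f(j)` is a non-zero square modulo `p` -/
def BadAll (Q : Set ℕ) (η : ℝ) (f : ℤ[X]) (T₀ N : ℕ) : Set ℕ := {j : ℕ | j < N ∧
  (T₀ : ℝ) ≤ |((f.eval (j : ℤ) : ℤ) : ℝ)| ∧
    ¬ |2 * (NZ Q (f.eval (j : ℤ)) : ℝ) - MQ Q (f.eval (j : ℤ))| ≤ η * MQ Q (f.eval (j : ℤ))}

lemma two_sets {P₁ P₂ : ℕ → Prop} (X : ℕ) (b : ℝ)
    (h : ∀ T : Finset ℕ, (∀ j ∈ T, j < X ∧ (P₁ j ∨ P₂ j)) → (T.card : ℝ) ≤ b) :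
    (({j : ℕ | j < X ∧ (P₁ j ∨ P₂ j)}).ncard : ℝ) ≤ b := by
  classical
  have hfin : ({j : ℕ | j < X ∧ (P₁ j ∨ P₂ j)} : Set ℕ).Finite :=
    (Set.finite_Iio X).subset fun j hj => hj.1
  rw [Set.ncard_eq_toFinset_card _ hfin]
  refine h _ fun j hj => ?_
  exact (Set.Finite.mem_toFinset hfin).1 hj

theorem result :
    Thick Set.univ 1 ∧
    ∀ (A ρ η ε : ℝ) (B D : ℕ) (Q : Set ℕ), 2 ≤ A → 1 / 2 < ρ → ρ ≤ 1 → 0 < η → 0 < ε → 1 ≤ D →
      Thick Q ρ → ∃ C K : ℝ, 0 < C ∧ 0 < K ∧ ∀ T₀ N : ℕ, ∀ f ∈ Fam D ((T₀ : ℝ) ^ B),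
        Real.log T₀ ^ C ≤ N → (N : ℝ) ≤ Real.exp (Real.log T₀ ^ (2 / A)) →
          ((BadFund Q η f T₀ N ∪ BadAll Q η f T₀ N).ncard : ℝ) ≤
            K * (N : ℝ) ^ (1 - ρ / 3 + 1 / (3 * A) + ε) := by
  refine ⟨Pool.Agent.Y549.SP.Fin2.thick_univ, ?_⟩
  intro A ρ η ε B D Q hA hρ hρ1 hη hε hD hQ
  obtain ⟨C, K, hC, hK, h⟩ := Pool.Agent.R418.UP.main A ρ η ε B D Q hA hρ hρ1 hη hε hD hQ
  refine ⟨C, K, hC, hK, fun T₀ N f hf h1 h3 => ?_⟩
  obtain ⟨hf1, hf2, hf3, hf4⟩ := hf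
  have h4 := two_sets N _ (h T₀ N f hf1 hf2 hf3 hf4 h1 h3)
  have h5 : BadFund Q η f T₀ N ∪ BadAll Q η f T₀ N = {j : ℕ | j < N ∧
        ((∃ d z : ℤ, NegFund d ∧ (T₀ : ℝ) ≤ |(d : ℝ)| ∧ z ≠ 0 ∧ f.eval (j : ℤ) * d = z * z ∧
          ¬ |2 * (NQ Q d : ℝ) - MQ Q d| ≤ η * MQ Q d) ∨
         ((T₀ : ℝ) ≤ |((f.eval (j : ℤ) : ℤ) : ℝ)| ∧
          ¬ |2 * (NZ Q (f.eval (j : ℤ)) : ℝ) - MQ Q (f.eval (j : ℤ))| ≤
            η * MQ Q (f.eval (j : ℤ))))} := by
    ext j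
    constructor
    · rintro (⟨b1, d, ⟨b2, z, b3, b4⟩, b5, b6⟩ | ⟨b1, b2⟩)
      · exact ⟨b1, Or.inl ⟨d, z, b2, b5, b3, b4, b6⟩⟩
      · exact ⟨b1, Or.inr b2⟩
    · rintro ⟨b1, ⟨d, z, b2, b5, b3, b4, b6⟩ | b2⟩
      · exact Or.inl ⟨b1, d, ⟨b2, z, b3, b4⟩, b5, b6⟩
      · exact Or.inr ⟨b1, b2⟩
  rw [h5]
  exact h4

end Pool.Agent.Results.MP_aaa0df_nt.UniformPolynomials
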